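import Pool.Agent.H556R4.Area

/-!
# Area law for lattice Yang-Mills theory at arbitrary magnetic coupling

Durhuus-Froehlich layering combined with a Dobrushin comparison estimate.  Only the plaquettes with
a time direction are required to be weakly coupled, with an explicit threshold.
-/

namespace Pool.Agent.Results.MP_7f377f_mp.AreaLaw

open MeasureTheory Pool.Agent.H556R4

/-- The plaquette variable `V_t(s(e)) U_{t+1}(e) V_t(t(e))⁻¹ U_t(e)⁻¹` of the plaquette spanned by
the spatial edge `e` and the time step from the layer `t` to the layer `t + 1`. -/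
def plaquette {G X E : Type} [Group G] {T : ℕ} (src tgt : E → X) (V : Fin T → X → G)
    (U : Fin (T + 1) → E → G) (t : Fin T) (e : E) : G :=
  V t (src e) * U t.succ e * (V t (tgt e))⁻¹ * (U t.castSucc e)⁻¹

/-- The holonomy of the loop which goes up through the `T` temporal links over the site `x`, then
along a path with holonomy `p` to `y`, down through the `T` temporal links over `y`, and back to `x`
along a path with holonomy `q`. -/
def holonomy {G X : Type} [Group G] {T : ℕ} (V : Fin T → X → G) (x y : X) (p q : G) : G :=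
  (List.ofFn fun t => V t x).prod * p * ((List.ofFn fun t => V t y).prod)⁻¹ * q

open scoped Matrix.Norms.L2Operator in
lemma entry_le {N : ℕ} (M : Matrix (Fin N) (Fin N) ℂ) (i : Fin N) : ‖M i i‖ ≤ ‖M‖ := by
  have h := Matrix.l2_opNorm_mulVec M (EuclideanSpace.single i (1 : ℂ))
  rw [PiLp.norm_single, norm_one, mul_one] at h
  refine le_trans ?_ h
  have h2 := PiLp.norm_apply_le (p := 2) (WithLp.toLp 2 (M.mulVec (EuclideanSpace.single i (1 : ℂ)).ofLp)) i
  refine le_trans (le_of_eq ?_) h2
  simp [Matrix.mulVec, dotProduct, EuclideanSpace.single]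

open scoped Matrix.Norms.L2Operator in
lemma trace_le {N : ℕ} (M : Matrix (Fin N) (Fin N) ℂ) : ‖M.trace‖ ≤ N * ‖M‖ := by
  unfold Matrix.trace
  refine (norm_sum_le _ _).trans ?_
  refine (Finset.sum_le_sum fun i _ => entry_le M i).trans ?_
  simp

open scoped Matrix.Norms.L2Operator in
lemma unitary_le {N : ℕ} (u : Matrix.unitaryGroup (Fin N) ℂ) :
    ‖(u : Matrix (Fin N) (Fin N) ℂ)‖ ≤ 1 := by
  rcases Nat.eq_zero_or_pos N with h | h
  · subst h
    have : (u : Matrix (Fin 0) (Fin 0) ℂ) = 0 := Subsingleton.elim _ _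
    rw [this, norm_zero]
    exact zero_le_one
  · have : Nonempty (Fin N) := ⟨⟨0, h⟩⟩
    exact (CStarRing.norm_coe_unitary u).le

/-- **Area law with arbitrary magnetic coupling.**  `G` is a compact group with normalised Haar
measure `μ`.  Space is a finite graph with sites `X`, edges `E` from `src e` to `tgt e` and all
degrees at most `Δ`.  `V t x` are the temporal links between the layers `t` and `t + 1`
(`t < T`), `U t e` the spatial links of the layers `t ≤ T`, `O j` all remaining links.  The weight is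
`F (U, O)`, an arbitrary bounded nonnegative function, times the product of the weights `w t e` of
the temporal plaquettes in the slab, with `0 < a ≤ w t e ≤ b`.  If
`Δ (b - a) / (b + a) < 1`, the loop expectation in a unitary representation `π` on which some
central `z` acts by a scalar `ζ ≠ 1` is at most `N (2 / |ζ - 1| * (Δ (b - a) / (b + a)) ^ r x) ^ T`,
where `r x` bounds the distance of `x` and `y` from below. -/
theorem result {G : Type} [Group G] [TopologicalSpace G] [IsTopologicalGroup G] [CompactSpace G]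
    [SecondCountableTopology G] [MeasurableSpace G] [BorelSpace G]
    (μ : Measure G) [IsProbabilityMeasure μ] [μ.IsHaarMeasure]
    {X E J : Type} [Fintype X] [DecidableEq X] [Fintype E] [Fintype J] (src tgt : E → X)
    {Δ : ℕ} (hΔ : ∀ v, (Finset.univ.filter fun e => src e = v ∨ tgt e = v).card ≤ Δ)
    {T : ℕ} (w : Fin T → E → G → ℝ) (hw : ∀ t e, Measurable (w t e)) {a b : ℝ} (ha : 0 < a)
    (hab : a ≤ b) (hwa : ∀ t e g, a ≤ w t e g) (hwb : ∀ t e g, w t e g ≤ b)
    (hρ : Δ * ((b - a) / (b + a)) < 1)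
    (F : (Fin (T + 1) → E → G) × (J → G) → ℝ) (hF : Measurable F) (hF0 : ∀ ω, 0 ≤ F ω)
    (hFb : ∃ c, ∀ ω, F ω ≤ c)
    {N : ℕ} (π : G →* Matrix.unitaryGroup (Fin N) ℂ) (hπ : Continuous π)
    {z : G} (hz : ∀ g, z * g = g * z) {ζ : ℂ}
    (hζ : (π z : Matrix (Fin N) (Fin N) ℂ) = ζ • (1 : Matrix (Fin N) (Fin N) ℂ)) (hζ1 : ζ ≠ 1)
    (x y : X) (r : X → ℕ) (hr : ∀ e, r (src e) ≤ r (tgt e) + 1 ∧ r (tgt e) ≤ r (src e) + 1)
    (hry : r y = 0)
    (p q : (Fin (T + 1) → E → G) × (J → G) → G) (hp : Measurable p) (hq : Measurable q) :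
    ‖∫ c : (Fin T → X → G) × ((Fin (T + 1) → E → G) × (J → G)),
        ((F c.2 * ∏ t, ∏ e, w t e (plaquette src tgt c.1 c.2.1 t e) : ℝ) : ℂ)
          * (π (holonomy c.1 x y (p c.2) (q c.2)) : Matrix (Fin N) (Fin N) ℂ).trace
        ∂((Measure.pi fun _ => Measure.pi fun _ => μ).prod
          ((Measure.pi fun _ => Measure.pi fun _ => μ).prod (Measure.pi fun _ => μ)))‖
      ≤ N * (2 / ‖ζ - 1‖ * (Δ * ((b - a) / (b + a))) ^ r x) ^ T
        * ∫ c : (Fin T → X → G) × ((Fin (T + 1) → E → G) × (J → G)),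
            F c.2 * ∏ t, ∏ e, w t e (plaquette src tgt c.1 c.2.1 t e)
          ∂((Measure.pi fun _ => Measure.pi fun _ => μ).prod
            ((Measure.pi fun _ => Measure.pi fun _ => μ).prod (Measure.pi fun _ => μ))) := by
  open scoped Matrix.Norms.L2Operator in
  obtain ⟨cF, hcF⟩ := hFb
  have hb : 0 < b := ha.trans_le hab
  have h1 : 0 ≤ (b - a) / (b + a) := div_nonneg (by linarith) (by linarith)
  set P : G →* Matrix (Fin N) (Fin N) ℂ := (Submonoid.subtype _).comp π with hP
  have hPc : Continuous P := continuous_subtype_val.comp hπ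
  have hPm : StronglyMeasurable P := hPc.stronglyMeasurable
  have : CompleteSpace (Matrix (Fin N) (Fin N) ℂ) := FiniteDimensional.complete ℂ _
  have hP1 : ∀ g, ‖P g‖ ≤ 1 := fun g => unitary_le (π g)
  let τ : Matrix (Fin N) (Fin N) ℂ →L[ℂ] ℂ := LinearMap.toContinuousLinearMap
    (Matrix.traceLinearMap (Fin N) ℂ ℂ)
  have key := Area.area (T := T) μ
    (((Measure.pi fun _ => Measure.pi fun _ => μ).prod (Measure.pi fun _ => μ)) :
      Measure ((Fin (T + 1) → E → G) × (J → G)))
    (U := fun ω => ω.1) (fun t e => (measurable_pi_apply e).comp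
      ((measurable_pi_apply t).comp measurable_fst)) hF hF0 hcF hw ha hwa hwb (src := src)
    (tgt := tgt) hPm hP1 τ (N := N) (Nat.cast_nonneg N) (fun M => trace_le M)
    (κ := 2 / ‖ζ - 1‖ * (Δ * ((b - a) / (b + a))) ^ r x) (by positivity) x y hp hq
    (fun ω t M => Area.lay_op μ (hw t) ha (hwa t) (hwb t) hab hΔ hρ hr hry hz hPm hP1 hζ hζ1 x _ _ M)
  exact key

end Pool.Agent.Results.MP_7f377f_mp.AreaLaw
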