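import Pool.Agent.H556R4.SU2f

/-!
# Area law for SU(2) lattice Yang-Mills theory with an improved explicit threshold

The magnetic couplings are arbitrary; in four dimensions the condition on the electric couplings is
`|β| < 1 / √3`.
-/

namespace Pool.Agent.Results.MP_7f377f_mp.AreaLawSU2

open MeasureTheory Pool.Agent.H556R4

/-- The group `SU(2)`, realised as the group of unit quaternions; half the trace is the real part. -/
abbrev SU2 : Type := Metric.sphere (0 : Quaternion ℝ) 1

/-- The plaquette variable `V_t(s(e)) U_{t+1}(e) V_t(t(e))⁻¹ U_t(e)⁻¹` of the plaquette spanned by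
the spatial edge `e` and the time step from the layer `t` to the layer `t + 1`. -/
noncomputable def plaquette {X E : Type} {T : ℕ} (src tgt : E → X) (V : Fin T → X → SU2)
    (U : Fin (T + 1) → E → SU2) (t : Fin T) (e : E) : SU2 :=
  V t (src e) * U t.succ e * (V t (tgt e))⁻¹ * (U t.castSucc e)⁻¹

/-- The holonomy of the loop which goes up through the `T` temporal links over the site `x`, then
along a path with holonomy `p` to `y`, down through the `T` temporal links over `y`, and back to `x`
along a path with holonomy `q`. -/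
noncomputable def holonomy {X : Type} {T : ℕ} (V : Fin T → X → SU2) (x y : X) (p q : SU2) : SU2 :=
  (List.ofFn fun t => V t x).prod * p * ((List.ofFn fun t => V t y).prod)⁻¹ * q

/-- the inclusion into the quaternions -/
def incl : SU2 →* Quaternion ℝ where
  toFun g := g
  map_one' := rfl
  map_mul' _ _ := rfl

lemma re_le (M : Quaternion ℝ) : ‖M.re‖ ≤ ‖M‖ := by
  rw [Real.norm_eq_abs]
  refine abs_le_of_sq_le_sq ?_ (norm_nonneg _)
  rw [sq ‖M‖, ← Quaternion.normSq_eq_norm_mul_self, Quaternion.normSq_def']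
  nlinarith [sq_nonneg M.imI, sq_nonneg M.imJ, sq_nonneg M.imK]

/-- **Area law for SU(2) with arbitrary magnetic coupling.**  Space is a finite graph without loops
with sites `X`, edges `E` and all degrees at most `Δ` (in dimension `d` a box in `ℤ^(d-1)`, with
`Δ = 2 (d - 1)`).  `V t x` are the temporal links between the layers `t` and `t + 1`, `U t e` the
spatial links of the layers `t ≤ T`, `O j` all remaining links.  The weight is `F (U, O)`, an
arbitrary bounded nonnegative function, times `exp (β t e * re (plaquette t e))` for the temporal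
plaquettes of the slab, where `re` is half the trace and `|β t e| ≤ b`.  If
`√3 / 6 * (Δ * b) < 1`, half the trace of the loop satisfies
`|⟨W⟩| ≤ (√3 / 6 * (Δ * b)) ^ (r x * T)`, where `r x` bounds the distance of `x` and `y` below. -/
theorem result [MeasurableSpace SU2] [BorelSpace SU2]
    (μ : Measure SU2) [IsProbabilityMeasure μ] [μ.IsHaarMeasure]
    {X E J : Type} [Fintype X] [DecidableEq X] [Fintype E] [Fintype J] (src tgt : E → X)
    (hloop : ∀ e, src e ≠ tgt e)
    {Δ : ℕ} (hΔ : ∀ v, (Finset.univ.filter fun e => src e = v ∨ tgt e = v).card ≤ Δ)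
    {T : ℕ} (β : Fin T → E → ℝ) {b : ℝ} (hb : 0 ≤ b) (hβ : ∀ t e, |β t e| ≤ b)
    (hρ : Real.sqrt 3 / 6 * (Δ * b) < 1)
    (F : (Fin (T + 1) → E → SU2) × (J → SU2) → ℝ) (hF : Measurable F) (hF0 : ∀ ω, 0 ≤ F ω)
    (hFb : ∃ c, ∀ ω, F ω ≤ c)
    (x y : X) (r : X → ℕ) (hr : ∀ e, r (src e) ≤ r (tgt e) + 1 ∧ r (tgt e) ≤ r (src e) + 1)
    (hry : r y = 0)
    (p q : (Fin (T + 1) → E → SU2) × (J → SU2) → SU2) (hp : Measurable p) (hq : Measurable q) :
    |∫ c : (Fin T → X → SU2) × ((Fin (T + 1) → E → SU2) × (J → SU2)),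
        (F c.2 * ∏ t, ∏ e, Real.exp (β t e * (plaquette src tgt c.1 c.2.1 t e : Quaternion ℝ).re))
          * (holonomy c.1 x y (p c.2) (q c.2) : Quaternion ℝ).re
        ∂((Measure.pi fun _ => Measure.pi fun _ => μ).prod
          ((Measure.pi fun _ => Measure.pi fun _ => μ).prod (Measure.pi fun _ => μ)))|
      ≤ (Real.sqrt 3 / 6 * (Δ * b)) ^ (r x * T)
        * ∫ c : (Fin T → X → SU2) × ((Fin (T + 1) → E → SU2) × (J → SU2)),
            F c.2 * ∏ t, ∏ e,
              Real.exp (β t e * (plaquette src tgt c.1 c.2.1 t e : Quaternion ℝ).re)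
          ∂((Measure.pi fun _ => Measure.pi fun _ => μ).prod
            ((Measure.pi fun _ => Measure.pi fun _ => μ).prod (Measure.pi fun _ => μ))) := by
  obtain ⟨cF, hcF⟩ := hFb
  have i1 : μ.IsMulRightInvariant := SU2.right_inv μ
  have i2 : μ.IsInvInvariant := SU2.inv_inv' μ
  have hw : ∀ t e, Measurable fun g : SU2 => Real.exp (β t e * (g : Quaternion ℝ).re) := fun t e =>
    (Real.continuous_exp.comp (continuous_const.mul SU2.cont_re)).measurable
  have hre : ∀ g : SU2, |(g : Quaternion ℝ).re| ≤ 1 := fun g =>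
    abs_le_one_iff_mul_self_le_one.2 (by have := SU2.re_sq_le g; rwa [sq] at this)
  have habs : ∀ t e (g : SU2), |β t e * (g : Quaternion ℝ).re| ≤ b := fun t e g => by
    rw [abs_mul]
    exact (mul_le_mul (hβ t e) (hre g) (abs_nonneg _) hb).trans (by rw [mul_one])
  have hlo : ∀ t e (g : SU2), Real.exp (-b) ≤ Real.exp (β t e * (g : Quaternion ℝ).re) :=
    fun t e g => Real.exp_le_exp.2 (abs_le.1 (habs t e g)).1
  have hup : ∀ t e (g : SU2), Real.exp (β t e * (g : Quaternion ℝ).re) ≤ Real.exp b :=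
    fun t e g => Real.exp_le_exp.2 (abs_le.1 (habs t e g)).2
  have hρe : (Δ : ℝ) * (Real.sqrt 3 / 6 * b) = Real.sqrt 3 / 6 * (Δ * b) := by ring
  have h1 : 0 ≤ Real.sqrt 3 / 6 * b := by positivity
  have hpm : StronglyMeasurable incl := continuous_subtype_val.stronglyMeasurable
  have hn1 : ∀ g : SU2, ‖incl g‖ = 1 := fun g => SU2.norm_coe' g
  have hneg : ∀ g : SU2, incl (SU2.negOne * g) = (-1 : ℝ) • incl g := fun g => by
    have := SU2.negOne_mul g
    rw [neg_one_smul]
    exact this
  have hlay : ∀ (ω : (Fin (T + 1) → E → SU2) × (J → SU2)) (t : Fin T) (M : Quaternion ℝ),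
      ‖∫ v, Area.lay src tgt (fun e (g : SU2) => Real.exp (β t e * (g : Quaternion ℝ).re))
          (ω.1 t.succ) (ω.1 t.castSucc) v • (incl (v x) * M * incl (v y)⁻¹) ∂(Dob.Pm μ)‖
        ≤ (Real.sqrt 3 / 6 * (Δ * b)) ^ r x * ‖M‖
          * ∫ v, Area.lay src tgt (fun e (g : SU2) => Real.exp (β t e * (g : Quaternion ℝ).re))
          (ω.1 t.succ) (ω.1 t.castSucc) v ∂(Dob.Pm μ) := by
    intro ω t M
    have hD := Area.lay_dens (src := src) (tgt := tgt) (hw t) (Real.exp_pos (-b)) (hlo t) (hup t)
      (ω.1 t.succ) (ω.1 t.castSucc)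
    have hz : ∀ g : SU2, SU2.negOne * g = g * SU2.negOne := fun g => by
      apply Subtype.ext
      rw [SU2.negOne_mul, Metric.unitSphere.coe_mul]
      simp [SU2.negOne]
    refine LayerR.layer_op μ hD (π := incl) (π' := fun g => incl g⁻¹) hpm
      (hpm.comp_measurable measurable_inv) (fun g => (hn1 g).le) (fun g => (hn1 _).le)
      (fun g => ?_) M
    have := LayerR.cvec_bound μ hD (z := SU2.negOne) (fun v => by
        unfold Area.lay Pair.pairW
        refine Finset.prod_congr rfl fun e _ => ?_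
        dsimp only
        rw [Area.central_cancel hz])
      (by norm_num) SU2.chord_cost
      (C := fun x y => Pair.nE src tgt x y * (Real.sqrt 3 / 6 * b))
      (fun x y hxy => SU2.lay_infl μ hloop (hβ t) _ _ hxy)
      (fun x y => by positivity) (ρ := Δ * (Real.sqrt 3 / 6 * b)) (by positivity)
      (by rw [hρe]; exact hρ) hry
      (Area.rowsum_pow h1 hΔ (by rw [hρe]; exact hρ) hr) (Area.rowsum h1 hΔ) (π := incl) hpm
      (fun g => (hn1 g).le) (ζ := -1) hneg (L := 1) (by norm_num)
      (fun g g' => by rw [one_mul]; exact le_rfl) x g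
    rw [hρe] at this
    have h2 : ‖(-1 : ℝ) - 1‖ = 2 := by norm_num
    rw [h2] at this
    linarith
  have key := AreaR.area (T := T) μ
    (((Measure.pi fun _ => Measure.pi fun _ => μ).prod (Measure.pi fun _ => μ)) :
      Measure ((Fin (T + 1) → E → SU2) × (J → SU2)))
    (U := fun ω => ω.1) (fun t e => (measurable_pi_apply e).comp
      ((measurable_pi_apply t).comp measurable_fst)) hF hF0 hcF hw (Real.exp_pos (-b)) hlo hup
    (src := src) (tgt := tgt) (π := incl) hpm (fun g => (hn1 g).le)
    (⟨⟨⟨fun q => q.re, fun _ _ => rfl⟩, fun _ _ => rfl⟩, Quaternion.continuous_re⟩ :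
      Quaternion ℝ →L[ℝ] ℝ) (N := 1) zero_le_one
    (fun M => by
      rw [one_mul]
      exact re_le M)
    (κ := (Real.sqrt 3 / 6 * (Δ * b)) ^ r x) (by positivity) x y hp hq
    hlay
  rw [one_mul, ← pow_mul] at key
  exact key

end Pool.Agent.Results.MP_7f377f_mp.AreaLawSU2
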