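import Pool.Agent.H556R4.Axial

/-!
# Exponential clustering for SU(2) lattice Yang-Mills theory

Gauge invariant observables of SU(2) lattice gauge theory cluster exponentially, uniformly in the
volume, with an explicit threshold; in four dimensions with equal couplings it is `|β| < √12 / 14`.
-/

namespace Pool.Agent.Results.MP_7f377f_mp.MassGapSU2

open MeasureTheory Function Pool.Agent.H556R4 Pool.Agent.H556R4.SU2 Pool.Agent.H556R4.Axial
  Pool.Agent.H556R4.Dob

variable [MeasurableSpace S3] [BorelSpace S3]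

/-- Configurations: temporal links `V t x` (`t < T`) and spatial links `U (t, e)` (`t ≤ T`). -/
abbrev Config (X E : Type) (T : ℕ) : Type := (Fin T → X → S3) × (Fin (T + 1) × E → S3)

/-- The product of the measures `μ` over all links. -/
noncomputable def linkMeasure (μ : Measure S3) (X E : Type) [Fintype X] [Fintype E] (T : ℕ) :
    Measure (Config X E T) :=
  (Measure.pi fun _ => Measure.pi fun _ => μ).prod (Measure.pi fun _ => μ)

/-- Gibbs expectation of `Φ` for the Wilson action. -/
noncomputable def expect (μ : Measure S3) {X E P : Type} [Fintype X] [Fintype E] [Fintype P]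
    {T : ℕ} (src tgt : E → X) (q : P → Fin 4 → E) (βs : Fin (T + 1) → P → ℝ)
    (βt : Fin T → E → ℝ) (Φ : Config X E T → ℝ) : ℝ :=
  (∫ c, Φ c * weight src tgt q βs βt c ∂(linkMeasure μ X E T))
    / ∫ c, weight src tgt q βs βt c ∂(linkMeasure μ X E T)

section aux

variable (μ : Measure S3) [IsProbabilityMeasure μ] [μ.IsMulLeftInvariant] [μ.IsMulRightInvariant]
  [μ.IsInvInvariant]
variable {X E P : Type} [Fintype X] [Fintype E] [DecidableEq E] [Fintype P] {T : ℕ}

omit [IsProbabilityMeasure μ] [μ.IsInvInvariant] in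
lemma mp_one (a b : S3) : MeasurePreserving (fun g : S3 => a * g * b⁻¹) μ μ := by
  have l : MeasurePreserving (fun g : S3 => a * g) μ μ := measurePreserving_mul_left μ a
  have r : MeasurePreserving (fun g : S3 => g * b⁻¹) μ μ := measurePreserving_mul_right μ b⁻¹
  exact r.comp l

omit [μ.IsInvInvariant] [Fintype X] [DecidableEq E] in
lemma mp_act (src tgt : E → X) (h : Fin (T + 1) → X → S3) :
    MeasurePreserving (actU src tgt h) (Pm μ : Measure (Fin (T + 1) × E → S3)) (Pm μ) := by
  have key := measurePreserving_pi (fun _ : Fin (T + 1) × E => μ) (fun _ => μ)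
    (f := fun i (g : S3) => h i.1 (src i.2) * g * (h i.1 (tgt i.2))⁻¹)
    fun i => mp_one μ (h i.1 (src i.2)) (h i.1 (tgt i.2))
  exact key

omit [Fintype X] [DecidableEq E] in
lemma weight_bm (src tgt : E → X) (q : P → Fin 4 → E) (βs : Fin (T + 1) → P → ℝ)
    (βt : Fin T → E → ℝ) : BM (weight src tgt q βs βt : Config X E T → ℝ) := by
  have a1 : ∀ t x, Measurable fun c : Config X E T => c.1 t x := fun t x =>
    (measurable_pi_apply x).comp ((measurable_pi_apply t).comp measurable_fst)
  have a2 : ∀ i, Measurable fun c : Config X E T => c.2 i := fun i =>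
    (measurable_pi_apply i).comp measurable_snd
  have hre : ∀ g : S3, |(g : Quaternion ℝ).re| ≤ 1 := fun g =>
    abs_le_one_iff_mul_self_le_one.2 (by have := re_sq_le g; rwa [sq] at this)
  have hexp : ∀ (b : ℝ) (g : S3), Real.exp (b * (g : Quaternion ℝ).re) ≤ Real.exp |b| := by
    intro b g
    refine Real.exp_le_exp.2 ((le_abs_self _).trans ?_)
    rw [abs_mul]
    exact mul_le_of_le_one_right (abs_nonneg _) (hre g)
  refine ⟨?_, (∏ t, ∏ p, Real.exp |βs t p|) * ∏ t, ∏ e, Real.exp |βt t e|, fun c => ?_⟩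
  · refine Measurable.mul ?_ ?_
    · refine Finset.measurable_prod _ fun t _ => Finset.measurable_prod _ fun p _ => ?_
      refine Real.measurable_exp.comp ((cont_re.measurable.comp ?_).const_mul _)
      exact (((a2 _).mul (a2 _)).mul (a2 _).inv).mul (a2 _).inv
    · refine Finset.measurable_prod _ fun t _ => Finset.measurable_prod _ fun e _ => ?_
      refine Real.measurable_exp.comp ((cont_re.measurable.comp ?_).const_mul _)
      exact (((a1 _ _).mul (a2 _)).mul (a1 _ _).inv).mul (a2 _).inv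
  · unfold weight
    rw [abs_of_nonneg (by positivity)]
    refine mul_le_mul ?_ ?_ (by positivity) (by positivity)
    · exact Finset.prod_le_prod (fun t _ => by positivity) fun t _ =>
        Finset.prod_le_prod (fun p _ => by positivity) fun p _ => hexp _ _
    · exact Finset.prod_le_prod (fun t _ => by positivity) fun t _ =>
        Finset.prod_le_prod (fun p _ => by positivity) fun p _ => hexp _ _

omit [μ.IsInvInvariant] in
/-- axial gauge fixing -/
lemma gauge_fix {src tgt : E → X} {q : P → Fin 4 → E}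
    (h1 : ∀ p, tgt (q p 0) = src (q p 1)) (h2 : ∀ p, tgt (q p 1) = tgt (q p 2))
    (h3 : ∀ p, src (q p 2) = tgt (q p 3)) (h4 : ∀ p, src (q p 3) = src (q p 0))
    (βs : Fin (T + 1) → P → ℝ) (βt : Fin T → E → ℝ) {Φ : Config X E T → ℝ} (hΦ : BM Φ)
    (hinv : ∀ h V U, Φ (actV h V, actU src tgt h U) = Φ (V, U)) :
    ∫ c, Φ c * weight src tgt q βs βt c ∂(linkMeasure μ X E T)
      = ∫ U, Φ (fun _ _ => 1, U) * Word.wt (wd q) (cp βs βt) U
        ∂(Pm μ : Measure (Fin (T + 1) × E → S3)) := by
  unfold linkMeasure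
  rw [integral_prod _ ((hΦ.mul (weight_bm src tgt q βs βt)).integrable _)]
  have key : ∀ V : Fin T → X → S3,
      ∫ U, Φ (V, U) * weight src tgt q βs βt (V, U) ∂(Pm μ : Measure (Fin (T + 1) × E → S3))
        = ∫ U, Φ (fun _ _ => 1, U) * Word.wt (wd q) (cp βs βt) U
          ∂(Pm μ : Measure (Fin (T + 1) × E → S3)) := by
    intro V
    have mp := mp_act μ src tgt (ax V)
    conv_rhs => rw [← mp.map_eq]
    have hm : BM fun U : Fin (T + 1) × E → S3 =>
        Φ (fun _ _ => 1, U) * Word.wt (wd q) (cp βs βt) U := by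
      refine (hΦ.comp (measurable_const.prodMk measurable_id)).mul (Word.wt_dens _ _).bm
    rw [integral_map mp.measurable.aemeasurable hm.meas.aestronglyMeasurable]
    refine integral_congr_ae (Filter.Eventually.of_forall fun U => ?_)
    simp only
    rw [← weight_one src tgt, ← hinv (ax V) V U, ← weight_inv h1 h2 h3 h4 βs βt (ax V) V U,
      actV_ax]
  have e : ∀ V : Fin T → X → S3,
      ∫ U, Φ (V, U) * weight src tgt q βs βt (V, U) ∂(Measure.pi fun _ : Fin (T + 1) × E => μ)
        = ∫ U, Φ (fun _ _ => 1, U) * Word.wt (wd q) (cp βs βt) U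
          ∂(Pm μ : Measure (Fin (T + 1) × E → S3)) := key
  simp only [e]
  simp

end aux

/-- **Mass gap (exponential clustering) for SU(2) lattice gauge theory.**  `SU(2)` is the group of
unit quaternions with Haar probability `μ`, and `re` is half the trace.  Space is a finite complex
with sites `X`, edges `E` from `src e` to `tgt e`, and plaquettes `P` with boundary
`q p 0, q p 1, (q p 2)⁻¹, (q p 3)⁻¹`; every edge lies in at most `m` spatial plaquettes (in
dimension `d` a box or torus in `ℤ^(d-1)`, `m = 2 (d - 2)`).  Time is `{0, …, T}`.  The weight is the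
exponential of `∑ βs t p * re (spatial plaquette) + ∑ βt t e * re (temporal plaquette)` with
`|βs| ≤ bs`, `|βt| ≤ bt`, and `ρ = √3 / 6 * (3 * m * bs + 2 * bt) < 1`.  `r` is a distance on the
spatial links, varying by at most one within a plaquette.  Then bounded gauge invariant `f`, `g`,
where `f` depends only on spatial links with `r = 0` and `g` has Lipschitz constants `D`, supported
where `r ≥ R`, satisfy `|⟨f g⟩ - ⟨f⟩ ⟨g⟩| ≤ 2 K ρ ^ R ∑ D`. -/
theorem result (μ : Measure S3) [IsProbabilityMeasure μ] [μ.IsHaarMeasure]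
    {X E P : Type} [Fintype X] [Fintype E] [DecidableEq E] [Fintype P] {T : ℕ}
    (src tgt : E → X) (q : P → Fin 4 → E) (hq : ∀ p, Function.Injective (q p))
    (h1 : ∀ p, tgt (q p 0) = src (q p 1)) (h2 : ∀ p, tgt (q p 1) = tgt (q p 2))
    (h3 : ∀ p, src (q p 2) = tgt (q p 3)) (h4 : ∀ p, src (q p 3) = src (q p 0)) {m : ℕ}
    (hm : ∀ e, (Finset.univ.filter fun p => ∃ i, q p i = e).card ≤ m)
    (βs : Fin (T + 1) → P → ℝ) (βt : Fin T → E → ℝ) {bs bt : ℝ} (hbs0 : 0 ≤ bs) (hbt0 : 0 ≤ bt)
    (hbs : ∀ t p, |βs t p| ≤ bs) (hbt : ∀ t e, |βt t e| ≤ bt)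
    (hρ : Real.sqrt 3 / 6 * (3 * m * bs + 2 * bt) < 1)
    (r : Fin (T + 1) × E → ℕ) (hrs : ∀ t p i j, r (t, q p i) ≤ r (t, q p j) + 1)
    (hrt : ∀ (t : Fin T) e, r (t.succ, e) ≤ r (t.castSucc, e) + 1 ∧
      r (t.castSucc, e) ≤ r (t.succ, e) + 1)
    (f g : Config X E T → ℝ) (hf : Measurable f) (hg : Measurable g) {K K' : ℝ}
    (hK : ∀ c, |f c| ≤ K) (hK' : ∀ c, |g c| ≤ K')
    (hfinv : ∀ h V U, f (actV h V, actU src tgt h U) = f (V, U))
    (hginv : ∀ h V U, g (actV h V, actU src tgt h U) = g (V, U))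
    (hfA : ∀ V U U', (∀ i, r i = 0 → U i = U' i) → f (V, U) = f (V, U'))
    {D : Fin (T + 1) × E → ℝ} (hD0 : ∀ i, 0 ≤ D i)
    (hD : ∀ V U i k, |g (V, update U i k) - g (V, U)|
      ≤ D i * ‖(k : Quaternion ℝ) - (U i : Quaternion ℝ)‖)
    {R : ℕ} (hDR : ∀ i, r i < R → D i = 0) :
    |expect μ src tgt q βs βt (fun c => f c * g c)
        - expect μ src tgt q βs βt f * expect μ src tgt q βs βt g|
      ≤ 2 * K * (Real.sqrt 3 / 6 * (3 * m * bs + 2 * bt)) ^ R * ∑ i, D i := by
  have i1 : μ.IsMulRightInvariant := SU2.right_inv μ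
  have i2 : μ.IsInvInvariant := SU2.inv_inv' μ
  have bf : BM f := ⟨hf, K, hK⟩
  have bg : BM g := ⟨hg, K', hK'⟩
  set f' : (Fin (T + 1) × E → S3) → ℝ := fun U => f (fun _ _ => 1, U) with hf'
  set g' : (Fin (T + 1) × E → S3) → ℝ := fun U => g (fun _ _ => 1, U) with hg'
  have mc : Measurable fun U : Fin (T + 1) × E → S3 => ((fun _ _ => 1, U) : Config X E T) :=
    measurable_const.prodMk measurable_id
  have bf' : BM f' := bf.comp mc
  have bg' : BM g' := bg.comp mc
  set ρ := Real.sqrt 3 / 6 * (3 * m * bs + 2 * bt) with hρd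
  have hρ0 : 0 ≤ ρ := by positivity
  have hH := Word.wt_dens (wd q : (Fin (T + 1) × P) ⊕ (Fin T × E) → _) (cp βs βt)
  have hC0 : ∀ x y, 0 ≤ Real.sqrt 3 / 6 * Word.cpl (wd q) (cp βs βt) x y := fun x y =>
    mul_nonneg (by positivity) (Word.cpl_nonneg x y)
  have hrow : ∀ x, ∑ y ∈ Finset.univ.erase x,
      Real.sqrt 3 / 6 * Word.cpl (wd q) (cp βs βt) x y ≤ ρ := fun x => by
    rw [← Finset.mul_sum]
    exact mul_le_mul_of_nonneg_left (row_axial hq hm hbs hbt hbs0 hbt0 x) (by positivity)
  have hr : ∀ x y, Real.sqrt 3 / 6 * Word.cpl (wd q) (cp βs βt) x y ≠ 0 → r x ≤ r y + 1 := by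
    intro x y hxy
    have hne : Word.cpl (wd q) (cp βs βt) x y ≠ 0 := right_ne_zero_of_mul hxy
    obtain ⟨p, -, hp⟩ := Finset.exists_ne_zero_of_sum_ne_zero hne
    have hp2 : x ∈ Word.supp (wd q p) ∧ y ∈ Word.supp (wd q p) := by
      by_contra hcon
      rw [if_neg hcon] at hp
      exact hp rfl
    obtain ⟨hx, hy⟩ := hp2
    rcases p with ⟨t, p⟩ | ⟨t, e⟩
    · simp only [Word.supp, wd, List.map_cons, List.map_nil, List.mem_cons, List.not_mem_nil,
        or_false] at hx hy
      rcases hx with rfl | rfl | rfl | rfl <;> rcases hy with rfl | rfl | rfl | rfl <;>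
        exact hrs _ _ _ _
    · simp only [Word.supp, wd, List.map_cons, List.map_nil, List.mem_cons, List.not_mem_nil,
        or_false] at hx hy
      have := hrt t e
      rcases hx with rfl | rfl <;> rcases hy with rfl | rfl <;> omega
  have main := Cluster.clustering μ hH (by norm_num) chord_cost
    (C := fun x y => Real.sqrt 3 / 6 * Word.cpl (wd q) (cp βs βt) x y)
    (fun x y _ => Word.wt_infl μ (wd_nodup hq) x y) hC0 hρ0 hρ (r := r)
    (pow_sum hC0 hρ0 hρ hrow hr) hrow Finset.univ (fun _ => 1) bf' bg' (K := K)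
    (fun U => hK _) (fun U U' h => hfA _ U U' h) (D := D) ⟨hD0, fun i U k => hD _ U i k⟩
    (R := R) hDR
  have em : ∀ U : Fin (T + 1) × E → S3, merge Finset.univ U (fun _ => (1 : S3)) = U := by
    intro U; funext i; simp [merge]
  unfold I Z at main
  simp only [em] at main
  unfold expect
  have bfg : BM fun c : Config X E T => f c * g c := bf.mul bg
  have b1 : BM fun _ : Config X E T => (1 : ℝ) := ⟨measurable_const, 1, fun _ => by simp⟩
  have e1 := gauge_fix μ h1 h2 h3 h4 βs βt bf hfinv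
  have e2 := gauge_fix μ h1 h2 h3 h4 βs βt bg hginv
  have e3 := gauge_fix μ h1 h2 h3 h4 βs βt bfg (fun h V U => by rw [hfinv, hginv])
  have e4 := gauge_fix μ h1 h2 h3 h4 βs βt b1 (fun h V U => rfl)
  simp only [one_mul] at e4
  rw [e1, e2, e3, e4]
  refine main.trans (le_of_eq ?_)
  ring

end Pool.Agent.Results.MP_7f377f_mp.MassGapSU2
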