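import Mathlib
import Pool.Agent.H906R3.YM.Final
import Pool.Agent.H906R3.YM.Conc

/-!
# Lattice Yang-Mills theory in the Hamiltonian form: the gap closes at weak coupling

Space is the periodic cubic lattice `(ℤ/l)^D` with `D ≥ 2`, the gauge group `G` is a closed subgroup
of `U(N)` of positive dimension `n`, and the Hamiltonian is the one of Kogut and Susskind,
`H = - (g ^ 2 / 2) Δ + g ^ (-2) ∑_p Re tr (1 - U_p)` on functions on `G ^ links`.
For every `ε > 0` there are `g₀ > 0` and `L`, such that for all couplings `0 < g < g₀` and all volumes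
`l ≥ L` the second energy level of `H` on gauge invariant functions is at most `E₀ + ε`, `E₀` being
the ground state energy. The excitations of energy at most `ε` are of the form `F Ω` with `F` a gauge
invariant function of the links in a cube of side `L` and `Ω` a vacuum, exact or approximate.
-/

open MeasureTheory Matrix
open scoped ContDiff Matrix.Norms.Frobenius

namespace Pool.Agent.Results.MP_7f377f_mp.WeakCouplingGap

set_option linter.unusedSectionVars false

noncomputable section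

/-- Complex `N × N` matrices. -/
abbrev Mt (N : ℕ) := Matrix (Fin N) (Fin N) ℂ

/-- The unitary group `U(N)`. -/
abbrev UU (N : ℕ) := Matrix.unitaryGroup (Fin N) ℂ

/-- The matrix of an element of a subgroup of `U(N)`. -/
def mt {N : ℕ} {G : Subgroup (UU N)} (g : G) : Mt N := ((g : UU N) : Mt N)

/-- Links of the periodic lattice `(ℤ/l)^D`: base point and direction. -/
abbrev Link (D l : ℕ) := (Fin D → ZMod l) × Fin D

/-- Unit vector of the lattice in direction `i`. -/
def unitv {D l : ℕ} (i : Fin D) : Fin D → ZMod l := Pi.single i 1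

/-- An orthonormal basis `X` of the Lie algebra of `G`, that is of the real space of all matrices `Y`
with `exp (t Y) ∈ G` for all real `t`, with the scalar product `Re tr (Y* Z)`; `ex a t` is the
element `exp (t X_a)` of `G`. -/
structure LieBasis {N : ℕ} (G : Subgroup (UU N)) (n : ℕ) where
  X : Fin n → Mt N
  ex : Fin n → ℝ → G
  ex_eq : ∀ a t, mt (ex a t) = NormedSpace.exp (t • X a)
  orth : ∀ a b, (trace ((X a)ᴴ * X b)).re = if a = b then 1 else 0
  full : ∀ Y : Mt N, (∀ t : ℝ, ∃ g : G, mt g = NormedSpace.exp (t • Y)) →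
    Y ∈ Submodule.span ℝ (Set.range X)

section

variable {N n D l : ℕ} {G : Subgroup (UU N)}

/-- The product of the link variables around the plaquette at `x` in the directions `i`, `j`. -/
def plaq (U : Link D l → G) (x : Fin D → ZMod l) (i j : Fin D) : G :=
  U (x, i) * U (x + unitv i, j) * (U (x + unitv j, i))⁻¹ * (U (x, j))⁻¹

/-- The magnetic energy `∑_p Re tr (1 - U_p)`, the sum over the plaquettes. -/
def magnetic [NeZero l] (U : Link D l → G) : ℝ :=
  ∑ x : Fin D → ZMod l, ∑ i : Fin D, ∑ j : Fin D,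
    if i < j then (trace (1 - mt (plaq U x i j))).re else 0

/-- Smooth functions of the link variables: restrictions of smooth functions of the matrices. -/
def IsSmooth [NeZero l] (F : (Link D l → G) → ℝ) : Prop :=
  ∃ f : (Link D l → Mt N) → ℝ, ContDiff ℝ ∞ f ∧ ∀ U, F U = f fun e => mt (U e)

/-- The derivative of `F` at `U` when the variable of the link `e` moves as `exp (t X_a) U_e`. -/
def dlink (B : LieBasis G n) (e : Link D l) (a : Fin n) (F : (Link D l → G) → ℝ)
    (U : Link D l → G) : ℝ :=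
  deriv (fun t => F (Function.update U e (B.ex a t * U e))) 0

/-- The energy `⟨F, H F⟩` of a smooth function `F`, as a quadratic form, `μ` being the Haar measure:
`(g ^ 2 / 2) ∑_{e, a} ∫ (D_{e, a} F) ^ 2 + g ^ (-2) ∫ (∑_p Re tr (1 - U_p)) F ^ 2`. -/
def energy [NeZero l] [MeasurableSpace G] (B : LieBasis G n) (μ : Measure G) (g : ℝ)
    (F : (Link D l → G) → ℝ) : ℝ :=
  g ^ 2 / 2 * (∑ e : Link D l, ∑ a : Fin n,
    ∫ U, (dlink B e a F U) ^ 2 ∂(Measure.pi fun _ : Link D l => μ)) +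
  1 / g ^ 2 * ∫ U, magnetic U * F U ^ 2 ∂(Measure.pi fun _ : Link D l => μ)

/-- Gauge transformation of the link variables. -/
def gauge (γ : (Fin D → ZMod l) → G) (U : Link D l → G) : Link D l → G :=
  fun e => γ e.1 * U e * (γ (e.1 + unitv e.2))⁻¹

/-- Gauge invariant functions. -/
def GaugeInv (F : (Link D l → G) → ℝ) : Prop := ∀ γ U, F (gauge γ U) = F U

/-- A state: a smooth gauge invariant function of the link variables with `∫ Ψ ^ 2 = 1`. -/
structure IsState [NeZero l] [MeasurableSpace G] (μ : Measure G)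
    (Ψ : (Link D l → G) → ℝ) : Prop where
  smooth : IsSmooth Ψ
  inv : GaugeInv Ψ
  norm : ∫ U, Ψ U ^ 2 ∂(Measure.pi fun _ : Link D l => μ) = 1

/-- The ground state energy: the infimum of the energies of the states. -/
def groundEnergy (D l : ℕ) [NeZero l] [MeasurableSpace G] (B : LieBasis G n) (μ : Measure G)
    (g : ℝ) : ℝ :=
  sInf {E : ℝ | ∃ Ψ : (Link D l → G) → ℝ, IsState μ Ψ ∧ energy B μ g Ψ = E}

/-- The second energy level in the sense of the minimum-maximum principle: the infimum of the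
numbers `E`, such that for some orthogonal states `Ψ`, `Φ` the energies of all unit vectors of
the plane spanned by `Ψ`, `Φ` are at most `E`. -/
def secondEnergy (D l : ℕ) [NeZero l] [MeasurableSpace G] (B : LieBasis G n) (μ : Measure G)
    (g : ℝ) : ℝ :=
  sInf {E : ℝ | ∃ Ψ Φ : (Link D l → G) → ℝ, IsState μ Ψ ∧ IsState μ Φ ∧
    ∫ U, Ψ U * Φ U ∂(Measure.pi fun _ : Link D l => μ) = 0 ∧
    ∀ a b : ℝ, energy B μ g (fun U => a * Ψ U + b * Φ U) ≤ E * (a ^ 2 + b ^ 2)}

/-- The value of `F` depends only on the variables of the links based in some cube of side `L`. -/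
def IsLocal [NeZero l] (L : ℕ) (F : (Link D l → G) → ℝ) : Prop :=
  ∃ x₀ : Fin D → ZMod l, ∀ U U' : Link D l → G, (∀ (y : Fin D → ℕ) (i : Fin D),
    (∀ k, y k < L) → U (fun k => x₀ k + (y k : ZMod l), i) =
      U' (fun k => x₀ k + (y k : ZMod l), i)) → F U = F U'

/-- `F` is a smooth gauge invariant function of the links of a cube of side `L`, `F Ω` is a state
orthogonal to `Ω`, and the energies of all unit vectors of the plane spanned by `Ω` and `F Ω` are
at most `E`. -/
structure IsSoft [NeZero l] [MeasurableSpace G] (B : LieBasis G n) (μ : Measure G) (g : ℝ)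
    (L : ℕ) (E : ℝ) (Ω F : (Link D l → G) → ℝ) : Prop where
  smooth : IsSmooth F
  inv : GaugeInv F
  loc : IsLocal L F
  orth : ∫ U, Ω U * (F U * Ω U) ∂(Measure.pi fun _ : Link D l => μ) = 0
  norm : ∫ U, (F U * Ω U) ^ 2 ∂(Measure.pi fun _ : Link D l => μ) = 1
  le : ∀ a b : ℝ, energy B μ g (fun U => a * Ω U + b * (F U * Ω U)) ≤ E * (a ^ 2 + b ^ 2)

end

open Pool.Agent.H906R3

variable {N n D l : ℕ} {G : Subgroup (UU N)}

/-- The same data in the form used by the helper files. -/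
def fm (B : LieBasis G n) : YM.Frame G n where
  X := B.X
  ex := B.ex
  ex_eq := B.ex_eq
  orth := B.orth
  full := B.full

/-- The abstract data. -/
def ld (B : LieBasis G n) : YM.LD G N n := (fm B).toLD

lemma shift_eq (B : LieBasis G n) (e : Link D l) (a : Fin n) (t : ℝ) (U : Link D l → G) :
    (ld B).shift e a t U = Function.update U e (B.ex a t * U e) := by
  funext e'
  unfold YM.LD.shift
  by_cases h : e' = e
  · subst h
    rw [Pi.mul_apply, Pi.mulSingle_eq_same, Function.update_self]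
    rfl
  · rw [Pi.mul_apply, Pi.mulSingle_eq_of_ne h, one_mul, Function.update_of_ne h]

lemma dlink_eq [NeZero l] (B : LieBasis G n) (e : Link D l) (a : Fin n)
    (F : YM.Sm (ld B) (Link D l)) (U : Link D l → G) :
    dlink B e a F.1 U = ((ld B).Dv (e, a) F).1 U := by
  rw [YM.Dv_apply]
  unfold dlink YM.LD.dF
  simp only [shift_eq]

lemma magnetic_eq [NeZero l] (B : LieBasis G n) (U : Link D l → G) :
    magnetic U = (YM.VT (ld B) D l).1 U := by
  have h1 := YM.VT_apply (L := ld B) U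
  have h2 : (YM.VT (ld B) D l).1 U = (ld B).ev U (YM.VT (ld B) D l) := rfl
  rw [h2, h1]
  have h3 : ∑ p : YM.Pl D l, YM.we (ld B) (YM.plqT U p.1.1 p.1.2.1 p.1.2.2) =
      ∑ p ∈ (Finset.univ.filter fun p : (Fin D → ZMod l) × Fin D × Fin D => p.2.1 < p.2.2),
        YM.we (ld B) (YM.plqT U p.1 p.2.1 p.2.2) := by
    rw [Finset.sum_subtype (p := fun p : (Fin D → ZMod l) × Fin D × Fin D => p.2.1 < p.2.2)]
    intro p; simp
  rw [h3, Finset.sum_filter, Fintype.sum_prod_type]
  unfold magnetic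
  refine Finset.sum_congr rfl fun x _ => ?_
  rw [Fintype.sum_prod_type]
  rfl

lemma inv_iff [NeZero l] (B : LieBasis G n) (u : YM.Sm (ld B) (Link D l)) :
    YM.Inv u ↔ GaugeInv u.1 := by
  constructor
  · intro h γ U
    exact congrArg (fun v : YM.Sm (ld B) (Link D l) => v.1 U) (h γ)
  · intro h γ
    exact YM.ev_ext fun U => h γ U

/-- A Haar probability measure is invariant under right multiplications. -/
lemma right_inv {H : Type*} [Group H] [TopologicalSpace H] [IsTopologicalGroup H]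
    [CompactSpace H] [MeasurableSpace H] [BorelSpace H] (μ : Measure H)
    [IsProbabilityMeasure μ] [μ.IsHaarMeasure] : μ.IsMulRightInvariant := by
  refine ⟨fun g => ?_⟩
  have h1 : IsProbabilityMeasure (Measure.map (fun x => x * g) μ) :=
    Measure.isProbabilityMeasure_map (measurable_mul_const g).aemeasurable
  exact Measure.isHaarMeasure_eq_of_isProbabilityMeasure _ _

section bridge

variable [CompactSpace G] [SecondCountableTopology G] [NeZero l]
  [MeasurableSpace G] [BorelSpace G] (μ : Measure G) [IsProbabilityMeasure μ] [μ.IsHaarMeasure]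
  (B : LieBasis G n) (g : ℝ)

lemma energy_eq (F : YM.Sm (ld B) (Link D l)) : energy B μ g F.1 =
    g ^ 2 / 2 * (ld B).I μ (YM.Gam (ld B).Dv F F) +
      1 / g ^ 2 * (ld B).I μ (YM.VT (ld B) D l * (F * F)) := by
  unfold energy
  congr 1
  · congr 1
    unfold YM.Gam
    rw [map_sum]
    refine Eq.trans ?_ (Fintype.sum_prod_type fun j : Link D l × Fin n =>
      (ld B).I μ ((ld B).Dv j F * (ld B).Dv j F)).symm
    refine Finset.sum_congr rfl fun e _ => Finset.sum_congr rfl fun a _ => ?_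
    rw [YM.I_apply]
    refine integral_congr_ae (Filter.Eventually.of_forall fun U => ?_)
    show (dlink B e a F.1 U) ^ 2 = ((ld B).Dv (e, a) F).1 U * ((ld B).Dv (e, a) F).1 U
    rw [dlink_eq, sq]
  · congr 1
    rw [YM.I_apply]
    refine integral_congr_ae (Filter.Eventually.of_forall fun U => ?_)
    show magnetic U * F.1 U ^ 2 = (YM.VT (ld B) D l).1 U * (F.1 U * F.1 U)
    rw [magnetic_eq B, sq]

lemma norm_eq (F : YM.Sm (ld B) (Link D l)) :
    ∫ U, F.1 U ^ 2 ∂(Measure.pi fun _ : Link D l => μ) = (ld B).I μ (F * F) := by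
  rw [YM.I_apply]
  refine integral_congr_ae (Filter.Eventually.of_forall fun U => ?_)
  show F.1 U ^ 2 = F.1 U * F.1 U
  rw [sq]

lemma enr_eq' (E0 : ℝ) (F : YM.Sm (ld B) (Link D l)) :
    (YM.fnE (ld B) μ (Link D l)).enr g (YM.VT (ld B) D l) E0 F F =
      energy B μ g F.1 - E0 * (ld B).I μ (F * F) := by
  rw [energy_eq]
  exact (YM.fnE (ld B) μ (Link D l)).enr_eq g (YM.VT (ld B) D l) E0 F F

lemma energy_nonneg (F : YM.Sm (ld B) (Link D l)) : 0 ≤ energy B μ g F.1 := by
  have h1 : (YM.fnE (ld B) μ (Link D l)).enr g (YM.VT (ld B) D l) 0 F F =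
    energy B μ g F.1 := by rw [enr_eq', zero_mul, sub_zero]
  rw [energy_eq]
  have h2 : 0 ≤ (ld B).I μ (YM.Gam (ld B).Dv F F) := by
    unfold YM.Gam
    rw [map_sum]
    exact Finset.sum_nonneg fun j _ => YM.I_sq_nonneg μ _
  have h3 : 0 ≤ (ld B).I μ (YM.VT (ld B) D l * (F * F)) := YM.I_nonneg μ fun U => by
    rw [map_mul, map_mul, YM.VT_apply]
    exact mul_nonneg (Finset.sum_nonneg fun _ _ => YM.we_nonneg _) (mul_self_nonneg _)
  positivity

lemma energy_nonneg' {F : (Link D l → G) → ℝ} (hF : IsSmooth F) : 0 ≤ energy B μ g F :=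
  energy_nonneg μ B g ⟨F, hF⟩

lemma ground_bdd : BddBelow {E : ℝ | ∃ Ψ : (Link D l → G) → ℝ, IsState μ Ψ ∧
    energy B μ g Ψ = E} := by
  refine ⟨0, ?_⟩
  rintro E ⟨Ψ, hΨ, rfl⟩
  exact energy_nonneg' μ B g hΨ.smooth

lemma ground_nonempty : {E : ℝ | ∃ Ψ : (Link D l → G) → ℝ, IsState μ Ψ ∧
    energy B μ g Ψ = E}.Nonempty := by
  refine ⟨_, fun _ => 1, ⟨⟨fun _ => 1, contDiff_const, fun _ => rfl⟩, fun _ _ => rfl, ?_⟩, rfl⟩
  simp

lemma ground_nonneg : 0 ≤ groundEnergy D l B μ g := by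
  refine Real.sInf_nonneg ?_
  rintro E ⟨Ψ, hΨ, rfl⟩
  exact energy_nonneg' μ B g hΨ.smooth

lemma state_of (u : YM.Sm (ld B) (Link D l)) (hu : YM.Inv u) (h1 : (ld B).I μ (u * u) = 1) :
    IsState μ u.1 :=
  ⟨u.2, (inv_iff B u).1 hu, by rw [norm_eq]; exact h1⟩

lemma ground_pos (u : YM.Sm (ld B) (Link D l)) (hu : YM.Inv u) :
    0 ≤ (YM.fnE (ld B) μ (Link D l)).enr g (YM.VT (ld B) D l) (groundEnergy D l B μ g) u u := by
  obtain ⟨Z, hZ⟩ : ∃ Z : ℝ, Z = (ld B).I μ (u * u) := ⟨_, rfl⟩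
  have hZ0 : 0 ≤ Z := by rw [hZ]; exact YM.I_sq_nonneg μ _
  rcases hZ0.eq_or_lt with h0 | h0
  · rw [enr_eq', ← hZ, ← h0, mul_zero, sub_zero]
    exact energy_nonneg μ B g u
  · obtain ⟨c, hc⟩ : ∃ c : ℝ, c = (Real.sqrt Z)⁻¹ := ⟨_, rfl⟩
    have hc2 : c ^ 2 * Z = 1 := by
      rw [hc, inv_pow, Real.sq_sqrt h0.le, inv_mul_cancel₀ h0.ne']
    have hn1 : (ld B).I μ (c • u * (c • u)) = 1 := by
      rw [smul_mul_assoc, mul_smul_comm, map_smul, map_smul, smul_eq_mul, smul_eq_mul, ← hZ,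
        ← hc2]
      ring
    have h1 : groundEnergy D l B μ g ≤ energy B μ g (c • u).1 :=
      csInf_le (ground_bdd μ B g) ⟨_, state_of μ B (c • u) (hu.smul c) hn1, rfl⟩
    have h2 := enr_eq' μ B g (groundEnergy D l B μ g) (c • u)
    rw [hn1, mul_one] at h2
    have h3 : 0 ≤ (YM.fnE (ld B) μ (Link D l)).enr g (YM.VT (ld B) D l)
        (groundEnergy D l B μ g) (c • u) (c • u) := by rw [h2]; linarith
    rw [YM.enr_smul] at h3
    have hc0 : 0 < c ^ 2 := by
      rcases (sq_nonneg c).eq_or_lt with h | h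
      · rw [← h, zero_mul] at hc2; exact absurd hc2 zero_ne_one
      · exact h
    exact (mul_nonneg_iff_of_pos_left hc0).1 h3

lemma ground_inf (δ : ℝ) (hδ : 0 < δ) : ∃ f : YM.Sm (ld B) (Link D l), YM.Inv f ∧
    (ld B).I μ (f * f) = 1 ∧ (YM.fnE (ld B) μ (Link D l)).enr g (YM.VT (ld B) D l)
      (groundEnergy D l B μ g) f f ≤ δ := by
  have h1 : sInf {E : ℝ | ∃ Ψ : (Link D l → G) → ℝ, IsState μ Ψ ∧ energy B μ g Ψ = E} <
      groundEnergy D l B μ g + δ := by
    unfold groundEnergy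
    linarith
  obtain ⟨E, ⟨Ψ, hΨ, rfl⟩, hE⟩ := exists_lt_of_csInf_lt (ground_nonempty μ B g) h1
  have h2 : (ld B).I μ ((⟨Ψ, hΨ.smooth⟩ : YM.Sm (ld B) (Link D l)) * ⟨Ψ, hΨ.smooth⟩) = 1 := by
    rw [← norm_eq]; exact hΨ.norm
  refine ⟨⟨Ψ, hΨ.smooth⟩, (inv_iff B _).2 hΨ.inv, h2, ?_⟩
  rw [enr_eq', h2, mul_one]
  have h3 : energy B μ g Ψ < groundEnergy D l B μ g + δ := hE
  show energy B μ g Ψ - groundEnergy D l B μ g ≤ δ
  linarith

lemma soft_of {L : ℕ} {ε E0 : ℝ} (w : YM.Sm (ld B) (Link D l))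
    (hnorm : (ld B).I μ (w * w) = 1) (h : YM.Soft μ L g E0 ε w) :
    ∃ F : (Link D l → G) → ℝ, IsSoft B μ g L (E0 + ε) w.1 F := by
  obtain ⟨r, hr, ⟨x₀, hx₀⟩, h1, h2, h3⟩ := h
  refine ⟨r.1, r.2, (inv_iff B r).1 hr, ⟨x₀, fun U U' hUU => ?_⟩, ?_, ?_, fun a b => ?_⟩
  · exact hx₀ U U' fun s => hUU (YM.cv s.1) s.2 fun k => (s.1 k).2
  · rw [YM.I_apply] at h1
    exact h1
  · have h4 := norm_eq μ B (r * w)
    rw [h2] at h4
    exact h4
  · have h4 := h3 a b
    rw [enr_eq'] at h4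
    have h5 : (a • w + b • (r * w)) * (a • w + b • (r * w)) =
        (a ^ 2) • (w * w) + (2 * (a * b)) • (w * (r * w)) + (b ^ 2) • (r * w * (r * w)) := by
      refine YM.ev_ext fun W => ?_
      simp only [map_mul, map_add, map_smul, smul_eq_mul]
      ring
    have h6 : (ld B).I μ ((a • w + b • (r * w)) * (a • w + b • (r * w))) = a ^ 2 + b ^ 2 := by
      rw [h5, map_add, map_add, map_smul, map_smul, map_smul, hnorm, h1, h2]
      simp
    rw [h6] at h4
    have h7 : energy B μ g (fun U => a * w.1 U + b * (r.1 U * w.1 U)) ≤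
        ε * (a ^ 2 + b ^ 2) + E0 * (a ^ 2 + b ^ 2) := by
      have h8 : energy B μ g (fun U => a * w.1 U + b * (r.1 U * w.1 U)) =
        energy B μ g (a • w + b • (r * w)).1 := rfl
      rw [h8]; linarith
    linarith

end bridge

theorem result {N n D : ℕ} (G : Subgroup (UU N)) (hG : IsClosed (G : Set (UU N)))
    [MeasurableSpace G] [BorelSpace G] (μ : Measure G) [IsProbabilityMeasure μ] [μ.IsHaarMeasure]
    (B : LieBasis G n) (hn : 1 ≤ n) (hD : 2 ≤ D) (ε : ℝ) (hε : 0 < ε) :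
    ∃ g₀ : ℝ, 0 < g₀ ∧ ∃ L : ℕ, ∀ g : ℝ, 0 < g → g < g₀ → ∀ (l : ℕ) [NeZero l], L ≤ l →
      secondEnergy D l B μ g ≤ groundEnergy D l B μ g + ε ∧
      (∀ δ : ℝ, 0 < δ → ∃ Ω F : (Link D l → G) → ℝ, IsState μ Ω ∧
        energy B μ g Ω ≤ groundEnergy D l B μ g + δ ∧
        IsSoft B μ g L (groundEnergy D l B μ g + ε) Ω F) ∧
      (∀ Ω : (Link D l → G) → ℝ, IsState μ Ω → energy B μ g Ω = groundEnergy D l B μ g →
        ∃ F : (Link D l → G) → ℝ, IsSoft B μ g L (groundEnergy D l B μ g + ε) Ω F) := by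
  have : CompactSpace G := by
    have h1 : IsCompact (G : Set (UU N)) := hG.isCompact
    exact isCompact_iff_compactSpace.1 h1
  have h00 : SecondCountableTopology (UU N) := TopologicalSpace.Subtype.secondCountableTopology _
  have : SecondCountableTopology G := TopologicalSpace.Subtype.secondCountableTopology _
  have : μ.IsMulRightInvariant := right_inv μ
  have hN : 0 < N := by
    rcases Nat.eq_zero_or_pos N with h | h
    · subst h
      have h1 := B.orth ⟨0, hn⟩ ⟨0, hn⟩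
      rw [if_pos rfl] at h1
      simp [trace] at h1
    · exact h
  obtain ⟨g₀, hg₀, L, hL⟩ := YM.final_abs μ (ld B) hn hN
    (i0 := (⟨0, by omega⟩ : Fin D)) (i1 := ⟨1, by omega⟩)
    (by rw [Fin.lt_def]; exact Nat.zero_lt_one) ε hε
  refine ⟨g₀, hg₀, L, ?_⟩
  intro g hg hgg l _ hl
  obtain ⟨hA, hB⟩ := hL g hg hgg l hl (groundEnergy D l B μ g) (ground_nonneg μ B g)
    (ground_pos μ B g)
  have hA' := hA (ground_inf μ B g)
  have hA2 : ∀ δ : ℝ, 0 < δ → ∃ Ω F : (Link D l → G) → ℝ, IsState μ Ω ∧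
        energy B μ g Ω ≤ groundEnergy D l B μ g + δ ∧
        IsSoft B μ g L (groundEnergy D l B μ g + ε) Ω F := by
    intro δ hδ
    obtain ⟨w, hw, hnorm, hen, hs⟩ := hA' δ hδ
    obtain ⟨F, hF⟩ := soft_of μ B g w hnorm hs
    refine ⟨w.1, F, state_of μ B w hw hnorm, ?_, hF⟩
    rw [enr_eq', hnorm, mul_one] at hen
    linarith
  refine ⟨?_, hA2, ?_⟩
  · obtain ⟨Ω, F, hΩ, -, hF⟩ := hA2 1 one_pos
    refine csInf_le ⟨0, ?_⟩ ⟨Ω, fun U => F U * Ω U, hΩ, ?_, hF.orth, hF.le⟩
    · rintro E ⟨Ψ, Φ, hΨ, -, -, hE⟩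
      have h1 := hE 1 0
      have h2 : (fun U => 1 * Ψ U + 0 * Φ U) = Ψ := by
        funext U; ring
      rw [h2] at h1
      have h3 := energy_nonneg' μ B g hΨ.smooth
      linarith
    · obtain ⟨f1, hf1, hf1'⟩ := hΩ.smooth
      obtain ⟨f2, hf2, hf2'⟩ := hF.smooth
      refine ⟨⟨fun M => f2 M * f1 M, hf2.mul hf1, fun U => ?_⟩, fun γ U => ?_, hF.norm⟩
      · show F U * Ω U = _
        rw [hf1', hf2']
      · show F (gauge γ U) * Ω (gauge γ U) = F U * Ω U
        rw [hF.inv, hΩ.inv]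
  · intro Ω hΩ hE
    have hnorm : (ld B).I μ ((⟨Ω, hΩ.smooth⟩ : YM.Sm (ld B) (Link D l)) * ⟨Ω, hΩ.smooth⟩) = 1 := by
      rw [← norm_eq]; exact hΩ.norm
    have h1 := hB ⟨Ω, hΩ.smooth⟩ ((inv_iff B _).2 hΩ.inv) hnorm (by
      rw [enr_eq', hnorm, mul_one]
      show energy B μ g Ω - groundEnergy D l B μ g = 0
      rw [hE, sub_self])
    exact soft_of μ B g _ hnorm h1

end

end Pool.Agent.Results.MP_7f377f_mp.WeakCouplingGap
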